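import Pool.Agent.Y506.RG.Stm

/-!
# Project RG: bounds for the transport, part 1 (one-dimensional tilted integrals)
-/

set_option autoImplicit false

open MeasureTheory Set Filter Topology

namespace Pool.Agent.Y401.RG

open Pool.Agent.Y506.RG

/-! ### general facts on positive integrable functions on the line -/

section gen

variable {g : ℝ → ℝ}

theorem int_sub_mul (hi0 : Integrable g) (hi1 : Integrable fun s => s * g s) (m : ℝ) :
    Integrable fun s => (s - m) * g s := by
  have h := hi1.sub (hi0.const_mul m)
  refine h.congr (Eventually.of_forall fun s => ?_)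
  show s * g s - m * g s = (s - m) * g s
  ring

theorem pos_of_pos_on (hpos : ∀ s, 0 < g s) (hi0 : Integrable g) {S : Set ℝ}
    (hS' : volume S ≠ 0) : 0 < ∫ s in S, g s := by
  rw [setIntegral_pos_iff_support_of_nonneg_ae (Eventually.of_forall fun s => (hpos s).le)
    hi0.integrableOn]
  have : Function.support g = univ := by
    ext s; simp [(hpos s).ne']
  rw [this, univ_inter]
  exact pos_iff_ne_zero.2 hS'

/-- upper bound for the tail moment -/
theorem right_bd (hpos : ∀ s, 0 < g s)
    (hlc : ∀ y r, 0 ≤ y → 0 ≤ r → g 0 * g (y + r) ≤ g y * g r) (hi0 : Integrable g)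
    (hi1 : Integrable fun s => s * g s) (x m : ℝ) (hx : 0 ≤ x) :
    ∫ s in Ioi x, (s - m) * g s ≤
      g x / g 0 * ((∫ s in Ioi 0, s * g s) + |x - m| * ∫ s in Ioi 0, g s) := by
  have htr : ∫ s in Ioi x, (s - m) * g s = ∫ r in Ioi 0, (r + x - m) * g (r + x) := by
    have h := (measurePreserving_add_right volume x).setIntegral_preimage_emb
      (measurableEmbedding_addRight x) (fun s => (s - m) * g s) (Ioi x)
    rw [← h]
    have e : (fun r : ℝ => r + x) ⁻¹' Ioi x = Ioi 0 := by
      ext r; simp
    rw [e]
  have hint1 : IntegrableOn (fun r => (r + x - m) * g (r + x)) (Ioi 0) :=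
    ((int_sub_mul hi0 hi1 m).comp_add_right x).integrableOn
  have hint2 : IntegrableOn (fun r => g x / g 0 * (r * g r + |x - m| * g r)) (Ioi 0) :=
    ((hi1.add (hi0.const_mul _)).const_mul _).integrableOn
  have hle : ∫ r in Ioi 0, (r + x - m) * g (r + x) ≤
      ∫ r in Ioi 0, g x / g 0 * (r * g r + |x - m| * g r) := by
    apply setIntegral_mono_on hint1 hint2 measurableSet_Ioi
    intro r hr
    have hr0 : 0 < r := hr
    have h1 : g (r + x) ≤ g x / g 0 * g r := by
      have := hlc x r hx hr0.le
      rw [div_mul_eq_mul_div, le_div_iff₀ (hpos 0)]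
      rw [add_comm r x]; linarith
    calc (r + x - m) * g (r + x) ≤ (r + |x - m|) * g (r + x) := by
          apply mul_le_mul_of_nonneg_right _ (hpos _).le
          have := le_abs_self (x - m)
          linarith
      _ ≤ (r + |x - m|) * (g x / g 0 * g r) := by
          apply mul_le_mul_of_nonneg_left h1
          have := abs_nonneg (x - m)
          linarith
      _ = g x / g 0 * (r * g r + |x - m| * g r) := by ring
  rw [htr]
  refine hle.trans (le_of_eq ?_)
  rw [integral_const_mul, integral_add hi1.integrableOn (hi0.const_mul _).integrableOn,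
    integral_const_mul]

/-- lower bound for the tail moment -/
theorem low_bd (hpos : ∀ s, 0 < g s) (hi0 : Integrable g)
    (hi1 : Integrable fun s => s * g s) (m x : ℝ) (hx : m ≤ x) :
    (∫ s in Ioi x, g s) * (∫ s, max (s - m) 0 * g s) ≤
      2 * (∫ s, g s) * ∫ s in Ioi x, (s - m) * g s := by
  set I := ∫ s in Ioi x, (s - m) * g s with hI
  set S := ∫ s in Ioi x, g s with hS
  set B := ∫ s, max (s - m) 0 * g s with hB
  set Z := ∫ s, g s with hZ
  have hSpos : 0 < S := pos_of_pos_on hpos hi0 (by simp)
  have hSZ : S ≤ Z := by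
    have := setIntegral_le_integral (s := Ioi x) hi0 (Eventually.of_forall fun s => (hpos s).le)
    exact this
  have hZpos : 0 < Z := hSpos.trans_le hSZ
  have hi := int_sub_mul hi0 hi1 m
  have hiB : Integrable fun s => max (s - m) 0 * g s := by
    have h2 : Integrable fun s => max ((s - m) * g s) 0 := hi.pos_part
    refine h2.congr (Eventually.of_forall fun s => ?_)
    show max ((s - m) * g s) 0 = max (s - m) 0 * g s
    rw [max_mul_of_nonneg _ _ (hpos s).le, zero_mul]
  -- (i)
  have h1 : (x - m) * S ≤ I := by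
    rw [hS, ← integral_const_mul]
    apply setIntegral_mono_on (hi0.const_mul _).integrableOn hi.integrableOn measurableSet_Ioi
    intro s hs
    apply mul_le_mul_of_nonneg_right _ (hpos s).le
    have : x < s := hs
    linarith
  -- (ii)
  have h2 : B ≤ I + (x - m) * Z := by
    rw [hI, ← integral_indicator measurableSet_Ioi, hZ, ← integral_const_mul,
      ← integral_add (hi.indicator measurableSet_Ioi) (hi0.const_mul _)]
    apply integral_mono hiB ((hi.indicator measurableSet_Ioi).add (hi0.const_mul _))
    intro s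
    show max (s - m) 0 * g s ≤ (Ioi x).indicator (fun s => (s - m) * g s) s + (x - m) * g s
    by_cases hs : s ∈ Ioi x
    · have hs' : x < s := hs
      rw [indicator_of_mem hs, max_eq_left (by linarith)]
      have := mul_nonneg (sub_nonneg.2 hx) (hpos s).le
      linarith
    · have hs' : s ≤ x := not_lt.1 hs
      rw [indicator_of_notMem hs, zero_add]
      apply mul_le_mul_of_nonneg_right _ (hpos s).le
      exact max_le (by linarith) (by linarith)
  have hB0 : 0 ≤ B := integral_nonneg fun s => mul_nonneg (le_max_right _ _) (hpos s).le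
  have hxm : 0 ≤ x - m := sub_nonneg.2 hx
  have hI0 : 0 ≤ I := (mul_nonneg hxm hSpos.le).trans h1
  by_cases hc : 2 * ((x - m) * Z) ≤ B
  · have h3 : B ≤ 2 * I := by linarith
    calc S * B ≤ Z * (2 * I) := mul_le_mul hSZ h3 hB0 hZpos.le
      _ = 2 * Z * I := by ring
  · push Not at hc
    calc S * B ≤ S * (2 * ((x - m) * Z)) := mul_le_mul_of_nonneg_left hc.le hSpos.le
      _ = 2 * Z * ((x - m) * S) := by ring
      _ ≤ 2 * Z * I := by
        apply mul_le_mul_of_nonneg_left h1; positivity

/-- the same on the left -/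
theorem left_bd (hpos : ∀ s, 0 < g s)
    (hlc : ∀ y r, 0 ≤ y → 0 ≤ r → g 0 * g (-(y + r)) ≤ g (-y) * g (-r)) (hi0 : Integrable g)
    (hi1 : Integrable fun s => s * g s) (x m : ℝ) (hx : x ≤ 0) :
    ∫ s in Iic x, (m - s) * g s ≤
      g x / g 0 * ((∫ s in Iic 0, -s * g s) + |x - m| * ∫ s in Iic 0, g s) := by
  have hi0' : Integrable fun s => g (-s) := hi0.comp_neg
  have hi1' : Integrable fun s => s * g (-s) := by
    have := hi1.comp_neg.neg
    refine this.congr (Eventually.of_forall fun s => ?_)
    show -(-s * g (-s)) = s * g (-s)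
    ring
  have h := right_bd (g := fun s => g (-s)) (fun s => hpos _)
    (by intro y r hy hr; simpa using hlc y r hy hr) hi0' hi1' (-x) (-m) (by linarith)
  have e1 : ∫ s in Ioi (-x), (s - -m) * g (-s) = ∫ s in Iic x, (m - s) * g s := by
    have h2 := integral_comp_neg_Ioi (-x) (fun s => (m - s) * g s)
    rw [neg_neg] at h2
    rw [← h2]
    congr 1; ext s; ring
  have e2 : ∫ s in Ioi (0 : ℝ), s * g (-s) = ∫ s in Iic 0, -s * g s := by
    have h2 := integral_comp_neg_Ioi 0 (fun s => -s * g s)
    rw [neg_zero] at h2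
    rw [← h2]
    congr 1; ext s; ring
  have e3 : ∫ s in Ioi (0 : ℝ), g (-s) = ∫ s in Iic 0, g s := by
    have h2 := integral_comp_neg_Ioi 0 g
    rw [neg_zero] at h2
    exact h2
  simp only [neg_neg, neg_zero] at h
  rw [e1, e2, e3] at h
  have e4 : |-x - -m| = |x - m| := by rw [← abs_neg]; congr 1; ring
  rwa [e4] at h

theorem low_bd' (hpos : ∀ s, 0 < g s) (hi0 : Integrable g)
    (hi1 : Integrable fun s => s * g s) (m x : ℝ) (hx : x ≤ m) :
    (∫ s in Iic x, g s) * (∫ s, max (m - s) 0 * g s) ≤
      2 * (∫ s, g s) * ∫ s in Iic x, (m - s) * g s := by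
  have hi0' : Integrable fun s => g (-s) := hi0.comp_neg
  have hi1' : Integrable fun s => s * g (-s) := by
    have := hi1.comp_neg.neg
    refine this.congr (Eventually.of_forall fun s => ?_)
    show -(-s * g (-s)) = s * g (-s)
    ring
  have h := low_bd (g := fun s => g (-s)) (fun s => hpos _) hi0' hi1' (-m) (-x) (by linarith)
  have e1 : ∫ s in Ioi (-x), (s - -m) * g (-s) = ∫ s in Iic x, (m - s) * g s := by
    have h2 := integral_comp_neg_Ioi (-x) (fun s => (m - s) * g s)
    rw [neg_neg] at h2
    rw [← h2]
    congr 1; ext s; ring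
  have e3 : ∫ s in Ioi (-x), g (-s) = ∫ s in Iic x, g s := by
    have h2 := integral_comp_neg_Ioi (-x) g
    rw [neg_neg] at h2
    exact h2
  have e4 : ∫ s, g (-s) = ∫ s, g s := integral_neg_eq_self g volume
  have e5 : ∫ s, max (s - -m) 0 * g (-s) = ∫ s, max (m - s) 0 * g s := by
    rw [← integral_neg_eq_self (fun s => max (m - s) 0 * g s) volume]
    congr 1; ext s; congr 2; ring
  rwa [e1, e3, e4, e5] at h

/-- the two expressions of the numerator -/
theorem num_eq (hi0 : Integrable g) (hi1 : Integrable fun s => s * g s) (hZ : (∫ s, g s) ≠ 0) (x : ℝ) :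
    ((∫ s, s * g s) * (∫ s in Iic x, g s) / (∫ s, g s) - ∫ s in Iic x, s * g s =
      ∫ s in Iic x, ((∫ s, s * g s) / (∫ s, g s) - s) * g s) ∧
    ∫ s in Iic x, ((∫ s, s * g s) / (∫ s, g s) - s) * g s =
      ∫ s in Ioi x, (s - (∫ s, s * g s) / (∫ s, g s)) * g s := by
  set m := (∫ s, s * g s) / (∫ s, g s) with hm
  have hi := int_sub_mul hi0 hi1 m
  have hi' : Integrable fun s => (m - s) * g s := by
    refine hi.neg.congr (Eventually.of_forall fun s => ?_)
    show -((s - m) * g s) = (m - s) * g s
    ring
  constructor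
  · have e : ∀ s, (m - s) * g s = m * g s - s * g s := fun s => by ring
    simp_rw [e]
    rw [integral_sub (hi0.const_mul _).integrableOn hi1.integrableOn, integral_const_mul, hm]
    ring
  · have h1 := intervalIntegral.integral_Iic_add_Ioi (b := x) (f := fun s => (m - s) * g s)
      hi'.integrableOn hi'.integrableOn
    have h2 : ∫ s, (m - s) * g s = 0 := by
      have e : ∀ s, (m - s) * g s = m * g s - s * g s := fun s => by ring
      simp_rw [e]
      rw [integral_sub (hi0.const_mul _) hi1, integral_const_mul, hm]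
      field_simp
      ring
    have h3 : ∫ s in Ioi x, (m - s) * g s = - ∫ s in Ioi x, (s - m) * g s := by
      rw [← integral_neg]
      congr 1; ext s; ring
    rw [h2, h3] at h1
    linarith

/-- the positive and the negative part have the same mean -/
theorem parts (hpos : ∀ s, 0 < g s) (hi0 : Integrable g) (hi1 : Integrable fun s => s * g s)
    (hZ : (∫ s, g s) ≠ 0) :
    2 * ∫ s, max (s - (∫ s, s * g s) / (∫ s, g s)) 0 * g s =
      ∫ s, |s - (∫ s, s * g s) / (∫ s, g s)| * g s ∧
    2 * ∫ s, max ((∫ s, s * g s) / (∫ s, g s) - s) 0 * g s =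
      ∫ s, |s - (∫ s, s * g s) / (∫ s, g s)| * g s := by
  set m := (∫ s, s * g s) / (∫ s, g s) with hm
  have hi := int_sub_mul hi0 hi1 m
  have hi' : Integrable fun s => (m - s) * g s := by
    refine hi.neg.congr (Eventually.of_forall fun s => ?_)
    show -((s - m) * g s) = (m - s) * g s
    ring
  have habs : Integrable fun s => |s - m| * g s := by
    refine hi.abs.congr (Eventually.of_forall fun s => ?_)
    show |(s - m) * g s| = |s - m| * g s
    rw [abs_mul, abs_of_pos (hpos s)]
  have hz : ∫ s, (s - m) * g s = 0 := by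
    have e : ∀ s, (s - m) * g s = s * g s - m * g s := fun s => by ring
    simp_rw [e]
    rw [integral_sub hi1 (hi0.const_mul _), integral_const_mul, hm]
    field_simp
    ring
  constructor
  · rw [← integral_const_mul]
    have e : ∀ s, 2 * (max (s - m) 0 * g s) = |s - m| * g s + (s - m) * g s := by
      intro s
      rcases le_total 0 (s - m) with h | h
      · rw [max_eq_left h, abs_of_nonneg h]; ring
      · rw [max_eq_right h, abs_of_nonpos h]; ring
    simp_rw [e]
    rw [integral_add habs hi, hz, add_zero]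
  · rw [← integral_const_mul]
    have e : ∀ s, 2 * (max (m - s) 0 * g s) = |s - m| * g s - (s - m) * g s := by
      intro s
      rcases le_total 0 (s - m) with h | h
      · rw [max_eq_right (by linarith), abs_of_nonneg h]; ring
      · rw [max_eq_left (by linarith), abs_of_nonpos h]; ring
    simp_rw [e]
    rw [integral_sub habs hi, hz, sub_zero]

end gen

end Pool.Agent.Y401.RG
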